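import Pool.Agent.MP_c78e8e_al.Mg.Sg_All
import Pool.Agent.MP_c78e8e_al.Mg.Sp_Rows

namespace Pool.Agent.Results.MP_c78e8e_al.AllSimple

open Pool.Agent.MP_c78e8e_al H75 Sp CartanMatrix

/-- The alternating groups, the simple groups of Lie type and the sporadic groups, each with its
value. -/
inductive Listed : (G : Type) → [Group G] → ℕ → Prop
  | alt (m : ℕ) (h : 5 ≤ m) :
      Listed (alternatingGroup (Fin m)) (if m = 6 ∨ m = 7 ∨ m = 8 then 4 else 3)
  | lin (K : Type) [Field K] [Finite K] (r : ℕ) (h : 2 ≤ r ∨ r = 1 ∧ 3 < Nat.card K) :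
      Listed (chev (A r) 1 (RingHom.id K))
        (if r = 2 ∨ r = 3 ∧ Even (Nat.card K) ∨ r = 1 ∧ (Nat.card K = 7 ∨ Nat.card K = 9) then 4
          else 3)
  | sym (K : Type) [Field K] [Finite K] (r : ℕ) (o : Odd r) (h : 5 ≤ r ∨ r = 3 ∧ 2 < Nat.card K) :
      Listed (chev (A r) Fin.revPerm (RingHom.id K)) (if r = 3 ∧ Nat.card K = 3 then 4 else 3)
  | uni (K : Type) [Field K] [Finite K] (φ : K →+* K) (hφ : ∀ s, φ (φ s) = s)
      (ne : φ ≠ RingHom.id K) (r : ℕ) (h : 3 ≤ r ∨ r = 2 ∧ Nat.card K ≠ 4) :
      Listed (chev (A r) Fin.revPerm φ)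
        (if r = 2 ∨ r = 3 ∧ (Even (Nat.card K) ∨ Nat.card K = 9) ∨ r = 4 ∧ Nat.card K = 4 then 4
          else 3)
  | d1 (K : Type) [Field K] [Finite K] (r : ℕ) (h : 4 ≤ r) : Listed (chev (D r) 1 (RingHom.id K)) 3
  | d2 (K : Type) [Field K] [Finite K] (φ : K →+* K) (hφ : ∀ s, φ (φ s) = s) (n : ℕ) (h : 2 ≤ n) :
      Listed (chev (D (n + 2)) (Equiv.swap (Fin.last n).castSucc (Fin.last (n + 1))) φ) 3
  | d3 (K : Type) [Field K] [Finite K] (φ : K →+* K) (hφ : ∀ s, φ (φ (φ s)) = s)
      (h : Nat.card K ≠ 2) : Listed (chev (D 4) (Equiv.swap 0 3 * Equiv.swap 0 2) φ) 3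
  | e6 (K : Type) [Field K] [Finite K] : Listed (chev E₆ 1 (RingHom.id K)) 3
  | e7 (K : Type) [Field K] [Finite K] : Listed (chev E₇ 1 (RingHom.id K)) 3
  | e8 (K : Type) [Field K] [Finite K] : Listed (chev E₈ 1 (RingHom.id K)) 3
  | e62 (K : Type) [Field K] [Finite K] (φ : K →+* K) (hφ : ∀ s, φ (φ s) = s) :
      Listed (chev E₆ (Equiv.swap 0 5 * Equiv.swap 2 4) φ) 3
  | b22 (K : Type) [Field K] [Finite K] (φ : K →+* K) (hφ : ∀ s, φ (φ s) = s ^ 2)
      (h : Nat.card K ≠ 2) : Listed (ree (A 3) [([0, 2], 1)] φ) 3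
  | g22 (K : Type) [Field K] [Finite K] (φ : K →+* K) (hφ : ∀ s, φ (φ s) = s ^ 3)
      (h : 3 < Nat.card K) : Listed (ree (D 4) [([0, 2, 3], 1)] φ) 3
  | f42 (K : Type) [Field K] [Finite K] (φ : K →+* K) (hφ : ∀ s, φ (φ s) = s ^ 2) :
      Listed (⁅ree E₆ [([0, 5], 1), ([2, 4], 3)] φ, ree E₆ [([0, 5], 1), ([2, 4], 3)] φ⁆ :
        Subgroup _) 3
  | co (N n : ℕ) (w : List ℕ)
      (h : (N, n, w) ∈ [(7920, 4, [211221121, 1213132213]), (95040, 3, [232, 11313]), (443520, 4,
      [12121211, 12112211]), (10200960, 4, [1, 2]), (244823040, 3, [1, 2, 3]), (604800, 3,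
      [2423142412211123122241314132324, 2423142412211143142411311313211224]), (44352000, 3,
      [12121211, 12112211, 142111123141431]), (898128000, 4, [12121211, 12112211, 42131232143]),
      (448345497600, 3, [111314, 1222121124]), (495766656000, 3, [1, 2, 411211314]),
      (42305421312000, 3, [1, 2, 3141432413]), (4157776806543360000, 3, [1, 2, 3, 4])])
      (G : Type) [Group G] (s : Spor G N (wn con w) (wn con w) w.length) : Listed G n
  | y (N p q r : ℕ)
      (h : (N, p, q, r) ∈ [(64561751654400, 3, 3, 2), (4089470473293004800, 4, 3, 2),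
      (1255205709190661721292800, 4, 4, 2), (4154781481226426191177580544000000, 5, 3, 3),
      (808017424794512875886459904961710757005754368000000000, 4, 4, 3)])
      (G : Type) [Group G] (s : Spor G N (rot p q r) (rot p q r) (p + q + r)) : Listed G 3
  | j1 (G : Type) [Group G] (h : Spor G 175560 ([59742217373217410912008818046396455710289787,
      124412789792502026216006414760324641976925555873257].map (dm 11 7))
      ([59742217373217410912008818046396455710289787,
      124412789792502026216006414760324641976925555873257].map (dm 11 7)) 2) : Listed G 3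
  | j3 (G : Type) [Group G] (h : Spor G 50232960 ([[[0, 12], [1, 4], [2, 17], [3, 6], [5, 9],
      [7, 14], [8, 18], [10, 15], [11, 16], [13, 19]], [[0, 11, 3], [1, 2, 19], [4, 10, 8], [5, 7,
      16], [6, 15, 17], [12, 18, 14]], [[0, 1, 2, 3, 4, 5, 6, 7, 8, 9, 10, 11, 12, 13, 14, 15, 16,
      17, 18]]].map (pm 2 20)) ([[[0, 19], [1, 12], [2, 6], [3, 4], [5, 10], [7, 18], [8, 11], [9,
      14], [13, 17], [15, 16]], [[0, 4, 10], [1, 15, 17], [2, 7, 5], [3, 18, 12], [6, 13, 14], [8,
      16, 9]], [[0, 1, 2, 3, 4, 5, 6, 7, 8, 9, 10, 11, 12, 13, 14, 15, 16, 17, 18]]].map (pm 2 20))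
      2) : Listed G 3
  | he (G : Type) [Group G] (h : Spor G 4030387200 ([9241421688489446150, 577588857680175120,
      13853125299270845185, 11696164961055474177].map (dm 2 8)) ([9241421688489445639,
      865820334417260560, 13853125299270845185, 11696164961055474177].map (dm 2 8)) 3) : Listed G 3
  | ru (G : Type) [Group G] (h : Spor G 145926144000
      ([57896486333794311352494555629718523170169412831852947439197645067696478486529,
      57896486333794311352270809573705167272045593269241985286535719098988539937280,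
      57896155053339684449905409833806343500289479056291081931753947133121701085185,
      28948905734546486136968030101597782677670146632589935812375297168103673298945,
      57896486333794311352515630971525843535857893990671139625374311206853127045123].map (dm 2 16))
      ([[[6, 8, 9, 7]], [[5, 6], [7, 9]], [[0, 1, 2]], [[0, 1], [2, 3]], [[2, 3, 4]]].map (pm 2 10))
      4) : Listed G 3
  | on (G : Type) [Group G] (h : Spor G 460815505920
      ([40536215740647992506109188141531751761180483539919804883866628702322,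
      40536215884151591575868324092953099437236418774667556984643473265497,
      42190118644613345000355100517445543731758967694539613574469026,
      40536215720147495263156960878032112684544281105522070492969860273005].map (dm 7 9))
      ([41246683293367909097196215968308386785259521065526181410237781689795,
      42190357716144856041934955678618188321570327006681114838852010,
      40536216458165999539407647051165586125309501774826195421463394041501,
      40536215720147495263156960878032112684544281105522070492969860273005].map (dm 7 9)) 3) :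
      Listed G 3
  | hn (G : Type) [Group G] (h : Spor G 273030912000000 ([[[0, 1, 2, 3, 4, 5, 6, 7, 8, 9, 10]],
      [[0, 11], [1, 10], [2, 5], [3, 7], [4, 8], [6, 9]], [[2, 10], [3, 4], [5, 9], [6, 7]], [[0, 1,
      2]]].map (pm 2 12)) ([[[10, 9, 8, 7, 6, 5, 4, 3, 2, 1, 0]], [[0, 11], [1, 10], [2, 5], [3, 7],
      [4, 8], [6, 9]], [[2, 10], [3, 4], [5, 9], [6, 7]], [[0, 1, 2]]].map (pm 2 12)) 3) : Listed G
      3
  | ly (G : Type) [Group G] (h : Spor G 51765179004000000
      ([61972099213168678750612237043243320340681684412898360561707784967993497001264318747855681513349674843424164148503938117291,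
      15466638494462375106878164341081194331345408769345478716884034533416305691744507069627736519570357445517165994354874472588,
      92672302302373386955359736713572278152387790928981151866529534313171247817225009569318576776810336733267690667281688261440,
      92679629461685973139040474474824495878742348852735450531070573208389411145124387154564238500420774127581639737352064187188].map
      (dm 3 16)) ([50090321838002835, 50068008354934504, 50077319614186349, 50260323488687677].map
      (dm 3 6)) 3) : Listed G 3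
  | th (G : Type) [Group G] (h : Spor G 90745943887872000
      ([123665204422062557356829759914321237307107484322588576777476790467146498727276412529351227280712350149883584747777310060775552263672136442732081603882892245536070311839006729,
      1932268819094727458726191803736921611803173981634239320828082203560822709270520547232590232775331991945113279950134051223996860733983973365553931878463881407009292965380160,
      61832602211031772943834134146036600205636902445871557960882162603747936126307346495354978889792956544164784565638334972104063292638149081334210754165200032728537111447207938].map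
      (dm 2 24)) ([99140097894441066977501, 53180330505232312334783, 145897545416667470427].map (dm
      3 7)) 2) : Listed G 3
  | j4 (G : Type) [Group G] (h : Spor G 86775571046077562880 ([16883842, 21237794, 8917057].map
      (dm 2 5)) ([[[0, 4, 12], [1, 3, 7, 2, 10], [6, 8, 9, 11, 18, 20, 17, 15, 14, 13, 19, 16, 21,
      22, 23]], [[0, 1], [2, 4], [3, 10], [5, 9], [6, 20], [7, 12], [8, 14], [11, 17], [13, 22],
      [15, 21], [16, 23], [18, 19]], [[0, 1, 2, 3, 4, 5, 6, 7, 8, 9, 10, 11, 12, 13, 14, 15, 16, 17,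
      18, 19, 20, 21, 22]]].map (pm 2 24)) 2) : Listed G 3

theorem result (G : Type) [Group G] (n : ℕ) (h : Listed G n) : IsLeast {k : ℕ | Good G k} n := by
  cases h with
  | alt _ h => exact tAlt h
  | lin _ _ h => exact allA h
  | sym _ _ o h => exact allC o h
  | uni _ _ hφ ne _ h => exact allU hφ ne h
  | d1 _ _ h => exact allD h
  | d2 _ _ hφ _ h => exact allB hφ h
  | d3 _ _ hφ h => exact allG hφ h
  | e6 => exact mainE6 fun _ => rfl
  | e7 => exact mainE7 fun _ => rfl
  | e8 => exact mainE8 fun _ => rfl
  | e62 _ _ hφ => exact mainF hφ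
  | b22 _ _ hφ h => exact tSz hφ h
  | g22 _ _ hφ h => exact tRe hφ h
  | f42 _ _ hφ => exact ree_good _ _ hφ
  | co _ _ _ h _ s =>
    simp only [List.mem_cons, Prod.mk.injEq, List.not_mem_nil, or_false] at h
    rcases h with ⟨rfl, rfl, rfl⟩ | ⟨rfl, rfl, rfl⟩ | ⟨rfl, rfl, rfl⟩ | ⟨rfl, rfl, rfl⟩ | ⟨rfl, rfl, rfl⟩ | ⟨rfl, rfl, rfl⟩ | ⟨rfl, rfl, rfl⟩ | ⟨rfl, rfl, rfl⟩ | ⟨rfl, rfl, rfl⟩ | ⟨rfl, rfl, rfl⟩ | ⟨rfl, rfl, rfl⟩ | ⟨rfl, rfl, rfl⟩
    exacts [tM11 s, tM12 s, tM22 s, tM23 s, tM24 s, tJ2 s, tHS s, tMcL s, tSuz s, tCo3 s, tCo2 s, tCo1 s]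
  | y _ _ _ _ h _ s =>
    simp only [List.mem_cons, Prod.mk.injEq, List.not_mem_nil, or_false] at h
    rcases h with ⟨rfl, rfl, rfl, rfl⟩ | ⟨rfl, rfl, rfl, rfl⟩ | ⟨rfl, rfl, rfl, rfl⟩ | ⟨rfl, rfl, rfl, rfl⟩ | ⟨rfl, rfl, rfl, rfl⟩
    exacts [tFi22 s, tFi23 s, tFi24 s, tB s, tM s]
  | j1 _ h => exact tJ1 h
  | j3 _ h => exact tJ3 h
  | he _ h => exact tHe h
  | ru _ h => exact tRu h
  | on _ h => exact tON h
  | hn _ h => exact tHN h
  | ly _ h => exact tLy h
  | th _ h => exact tTh h
  | j4 _ h => exact tJ4 h

end Pool.Agent.Results.MP_c78e8e_al.AllSimple
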